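import Pool.Agent.J4.H12.IE.Inv
import Pool.Agent.W36.JL.K6

/-! Total stopping times at one linear form and events invariant under translations. -/

set_option autoImplicit false

namespace Pool.Agent.J4.H12.IE

open Finset Filter Topology
open Pool.Agent.H499R2.ND (Tn Dn Phi)
open Pool.Agent.W36.JL
open Pool.Agent.W36.GU (win win_abs win_sup Sup)
open Pool.Agent.W36.GK (Sm GN_all box dot mem_box dot_self_pos)
open Pool.Agent.W36.GV (GN B1)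
open Pool.Agent.W41 (ind ind_nonneg ind_le_one)
open Pool.Agent.W41.FU (bal)

/-- the balanced function of a level set against functions invariant under translations -/
theorem bal_inv {D K m : ℕ} (hm : 1 ≤ m) {δ : ℝ} (h0 : 0 < δ) (h1 : δ ≤ 1)
    (hlaw : ∀ a : ℤ, ∀ x : ℝ, Dn (fun n => EB m a (bd x n) n) (δ * Phi x / m))
    {Λ : Fin (D + 1) → ℤ} (hΛ : Λ ≠ 0) (v : Fin K → Fin (D + 1) → ℤ) (hv : ∀ l, dot Λ (v l) ≠ 0)
    (a : ℤ) (x : ℝ) {ε : ℝ} (hε : 0 < ε) :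
    ∃ X0 : ℕ, ∀ X : ℕ, X0 ≤ X → ∀ (c : ℤ) (M N : ℕ), M ≤ N → N ≤ X → ∀ P P' : Fin (D + 1) → ℤ,
      (∀ j, P' j - P j ≤ X) → ∀ f : Fin K → (Fin (D + 1) → ℤ) → ℝ, (∀ l y, |f l y| ≤ 1) →
      (∀ l y, f l (y + v l) = f l y) →
      |∑ y ∈ box P P', win M N (bal 1 (SX m a x) (δ * Phi x / m)) (dot Λ y + c) * ∏ l, f l y| ≤
        ε * (X : ℝ) ^ (D + 1) := by
  obtain ⟨η, hη, X1, h2⟩ := inv_small (K := K) hΛ (Fin.cons Λ v) (by
    intro l
    refine Fin.cases ?_ (fun l => ?_) l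
    · rw [Fin.cons_zero]; exact (dot_self_pos hΛ).ne'
    · rw [Fin.cons_succ]; exact hv l) hε
  have hF := FF_hyp h0 h1 hm (fun _ : Fin 1 => a) (fun _ => x) hlaw
  obtain ⟨X2, h3⟩ := GN_all hF (K + 1) η hη
  have hmem : bal 1 (SX m a x) (δ * Phi x / m) ∈ FF δ m (fun _ : Fin 1 => a) (fun _ => x) := ⟨0, rfl⟩
  have hβ := dens_mem h0 h1 hm x
  refine ⟨X1 + X2, fun X hX c M N hM hN P P' hP f hf hfi => ?_⟩
  have h4 := h2 X (by omega) c P P' hP (win M N (bal 1 (SX m a x) (δ * Phi x / m)))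
    (win_abs (fun n => bal_abs' _ hβ.1 hβ.2 n) _ _) (win_sup _ _ hN)
    (h3 X (by omega) _ hmem M N hM hN) (Fin.cons (fun _ => 1) f) (by
      intro l y
      refine Fin.cases ?_ (fun l => ?_) l
      · rw [Fin.cons_zero]; simp
      · rw [Fin.cons_succ]; exact hf l y) (by
      intro l y
      refine Fin.cases ?_ (fun l => ?_) l
      · rw [Fin.cons_zero]
      · rw [Fin.cons_succ, Fin.cons_succ]; exact hfi l y)
  refine le_trans (le_of_eq ?_) h4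
  congr 1
  refine sum_congr rfl fun y _ => ?_
  rw [Fin.prod_univ_succ, Fin.cons_zero, one_mul]
  simp only [Fin.cons_succ]

/-- The number of the integer points `v` of the box `∏ (P j, P' j]` which are in all the sets `E l`, such
that the value `Λ • v + c` is in `S` and in the interval `(M, N]`. -/
noncomputable def Pts {D K : ℕ} (Λ : Fin D → ℤ) (c : ℤ) (M N : ℕ) (P P' : Fin D → ℤ)
    (E : Fin K → Set (Fin D → ℤ)) (S : Set ℤ) : ℕ :=
  {v : Fin D → ℤ | (∀ j, P j < v j ∧ v j ≤ P' j) ∧ (∀ l, v ∈ E l) ∧ (∑ j, Λ j * v j + c) ∈ S ∧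
    (M : ℤ) < ∑ j, Λ j * v j + c ∧ ∑ j, Λ j * v j + c ≤ N}.ncard

open Classical in
theorem Pts_eq {D K : ℕ} (Λ : Fin D → ℤ) (c : ℤ) (M N : ℕ) (P P' : Fin D → ℤ)
    (E : Fin K → Set (Fin D → ℤ)) (S : Set ℤ) : (Pts Λ c M N P P' E S : ℝ) =
      ∑ y ∈ box P P', win M N (ind 1 S) (dot Λ y + c) * ∏ l, (if y ∈ E l then (1 : ℝ) else 0) := by
  have e1 : {v : Fin D → ℤ | (∀ j, P j < v j ∧ v j ≤ P' j) ∧ (∀ l, v ∈ E l) ∧
      (∑ j, Λ j * v j + c) ∈ S ∧ (M : ℤ) < ∑ j, Λ j * v j + c ∧ ∑ j, Λ j * v j + c ≤ N} =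
      ((box P P').filter (fun v : Fin D → ℤ => (∀ l, v ∈ E l) ∧ (∑ j, Λ j * v j + c) ∈ S ∧
        (M : ℤ) < ∑ j, Λ j * v j + c ∧ ∑ j, Λ j * v j + c ≤ N) : Finset (Fin D → ℤ)) := by
    ext v
    rw [Finset.mem_coe, mem_filter, mem_box]
    rfl
  unfold Pts
  rw [e1, Set.ncard_coe_finset, card_filter]
  push_cast
  refine sum_congr rfl fun v _ => ?_
  have e2 : dot Λ v + c = ∑ j, Λ j * v j + c := rfl
  rw [e2]
  unfold win ind
  rw [one_mul]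
  by_cases h1 : ∀ l, v ∈ E l
  · have h2 : ∏ l, (if v ∈ E l then (1 : ℝ) else 0) = 1 := prod_eq_one fun l _ => if_pos (h1 l)
    rw [h2, mul_one]
    by_cases a1 : (∑ j, Λ j * v j + c) ∈ S <;>
      by_cases a2 : (M : ℤ) < ∑ j, Λ j * v j + c ∧ ∑ j, Λ j * v j + c ≤ N <;> simp [h1, a1, a2]
  · have h2 : ∏ l, (if v ∈ E l then (1 : ℝ) else 0) = 0 := by
      push Not at h1
      obtain ⟨l, hl⟩ := h1
      exact prod_eq_zero (mem_univ l) (if_neg hl)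
    rw [h2, mul_zero, if_neg (fun h => h1 h.1)]

/-- **Independence of events invariant under translations.** -/
theorem count_inv {D K m : ℕ} (hm : 1 ≤ m) {δ : ℝ} (h0 : 0 < δ) (h1 : δ ≤ 1)
    (hlaw : ∀ a : ℤ, ∀ x : ℝ, Dn (fun n => EB m a (bd x n) n) (δ * Phi x / m))
    {Λ : Fin (D + 1) → ℤ} (hΛ : Λ ≠ 0) (v : Fin K → Fin (D + 1) → ℤ) (hv : ∀ l, dot Λ (v l) ≠ 0)
    (a : ℤ) (x : ℝ) {ε : ℝ} (hε : 0 < ε) :
    ∃ X0 : ℕ, ∀ X : ℕ, X0 ≤ X → ∀ E : Fin K → Set (Fin (D + 1) → ℤ),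
      (∀ l w, w + v l ∈ E l ↔ w ∈ E l) → ∀ (c : ℤ) (M N : ℕ), M ≤ N → N ≤ X →
      ∀ P P' : Fin (D + 1) → ℤ, (∀ j, P' j - P j ≤ X) →
      |(Pts Λ c M N P P' E (SX m a x) : ℝ) - δ * Phi x / m * Pts Λ c M N P P' E Set.univ| ≤
        ε * (X : ℝ) ^ (D + 1) := by
  classical
  obtain ⟨X0, h⟩ := bal_inv (K := K) hm h0 h1 hlaw hΛ v hv a x hε
  refine ⟨X0, fun X hX E hE c M N hM hN P P' hP => ?_⟩
  have h2 := h X hX c M N hM hN P P' hP (fun l y => if y ∈ E l then 1 else 0) (by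
    intro l y
    split_ifs <;> simp) (by
    intro l y
    simp only [hE])
  refine le_trans (le_of_eq ?_) h2
  rw [Pts_eq, Pts_eq, mul_sum, ← sum_sub_distrib]
  congr 1
  refine sum_congr rfl fun y _ => ?_
  have e : win M N (bal 1 (SX m a x) (δ * Phi x / m)) (dot Λ y + c) =
      win M N (ind 1 (SX m a x)) (dot Λ y + c) -
        δ * Phi x / m * win M N (ind 1 Set.univ) (dot Λ y + c) := by
    unfold win Pool.Agent.W41.FU.bal
    have : ind 1 Set.univ (dot Λ y + c) = 1 := by unfold Pool.Agent.W41.ind; simp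
    rw [this]
    split_ifs <;> ring
  rw [e]
  ring

end Pool.Agent.J4.H12.IE
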