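import Pool.Agent.Helper903.DHJ

/-! The multidimensional Szemerédi theorem with the right number of configurations, for sets of integer
points, from the density Hales-Jewett theorem. -/

set_option autoImplicit false

namespace Pool.Agent.J4.H12.IE

open Finset Combinatorics

/-- the integer points of the cube `(a, b]^e` -/
noncomputable def cube (e : ℕ) (a b : ℤ) : Finset (Fin e → ℤ) := Fintype.piFinset fun _ => Ioc a b

theorem mem_cube {e : ℕ} {a b : ℤ} {x : Fin e → ℤ} : x ∈ cube e a b ↔ ∀ j, a < x j ∧ x j ≤ b := by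
  unfold cube
  simp only [Fintype.mem_piFinset, mem_Ioc]

theorem card_cube (e : ℕ) (a b : ℤ) : (cube e a b).card = (b - a).toNat ^ e := by
  unfold cube
  rw [Fintype.card_piFinset, prod_const, card_univ, Fintype.card_fin, Int.card_Ioc]

/-- density Hales-Jewett with cardinalities -/
theorem dhj_card (α : Type) [Fintype α] [DecidableEq α] {δ : ℝ} (hδ : 0 < δ) : ∃ n : ℕ,
    ∀ W : Finset (Fin n → α), δ * (Fintype.card α : ℝ) ^ n ≤ W.card → 0 < Fintype.card α →
      ∃ L : Line α (Fin n), ∀ a, L a ∈ W := by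
  classical
  obtain ⟨n, hn⟩ := Pool.Agent.Helper903.DHJ.ldhj α δ hδ
  refine ⟨n, fun W hW h0 => ?_⟩
  obtain ⟨L, hL⟩ := hn (W : Set (Fin n → α)) (by
    have h1 : Pool.Agent.Helper903.DHJ.dens (W : Set (Fin n → α)) =
        (W.card : ℝ) / (Fintype.card α : ℝ) ^ n := by
      unfold Pool.Agent.Helper903.DHJ.dens Pool.Agent.Helper903.DHJ.avg
      congr 1
      · unfold Pool.Agent.Helper903.DHJ.ind
        simp [Set.indicator_apply, Finset.sum_ite_mem]
      · simp
    have h2 : (0 : ℝ) < Fintype.card α := by exact_mod_cast h0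
    rw [h1, le_div_iff₀ (by positivity)]
    exact hW)
  exact ⟨L, fun i => by exact_mod_cast hL i⟩

section config

variable {e q r : ℕ} (F : Fin q → Fin e → ℤ)

/-- the point of a word -/
def wpt (u : Fin r → Fin q) (h : Fin r → ℤ) : Fin e → ℤ := ∑ i, h i • F (u i)

/-- the fixed part of a pattern -/
def fpt (w : Fin r → Option (Fin q)) (h : Fin r → ℤ) : Fin e → ℤ :=
  ∑ i, (w i).elim 0 (fun a => h i • F a)

/-- the common difference of a pattern -/
def dpt (w : Fin r → Option (Fin q)) (h : Fin r → ℤ) : ℤ :=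
  ∑ i, (w i).elim (h i) (fun _ => 0)

theorem wpt_eq (w : Fin r → Option (Fin q)) (h : Fin r → ℤ) (b : Fin q) :
    wpt F (fun i => (w i).getD b) h = fpt F w h + dpt w h • F b := by
  unfold wpt fpt dpt
  rw [sum_smul, ← sum_add_distrib]
  refine sum_congr rfl fun i _ => ?_
  show h i • F ((w i).getD b) = _
  cases hwi : w i with
  | none => rw [Option.getD_none, Option.elim_none, Option.elim_none, zero_add]
  | some a => rw [Option.getD_some, Option.elim_some, Option.elim_some, zero_smul, add_zero]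

theorem wpt_abs {C : ℕ} (hC : ∀ b j, |F b j| ≤ C) (u : Fin r → Fin q) {h : Fin r → ℤ} {H : ℕ}
    (hh : ∀ i, 1 ≤ h i ∧ h i ≤ H) (j : Fin e) : |wpt F u h j| ≤ r * H * C := by
  unfold wpt
  rw [Finset.sum_apply]
  refine (abs_sum_le_sum_abs _ _).trans ?_
  have h1 : ∀ i ∈ (univ : Finset (Fin r)), |(h i • F (u i)) j| ≤ (H : ℤ) * C := by
    intro i _
    rw [Pi.smul_apply, smul_eq_mul, abs_mul]
    have h2 : |h i| ≤ H := by rw [abs_of_nonneg (by linarith [(hh i).1])]; exact (hh i).2
    exact mul_le_mul h2 (hC _ _) (abs_nonneg _) (by positivity)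
  refine (sum_le_card_nsmul _ _ _ h1).trans (le_of_eq ?_)
  rw [card_univ, Fintype.card_fin, nsmul_eq_mul]
  ring

end config

/-- **The multidimensional Szemerédi theorem, with the right number of configurations.** -/
theorem many (e q : ℕ) (F : Fin (q + 1) → Fin e → ℤ) {α : ℝ} (hα : 0 < α) : ∃ c : ℝ, 0 < c ∧
    ∃ N0 : ℕ, ∀ N : ℕ, N0 ≤ N → ∀ A : Finset (Fin e → ℤ), A ⊆ cube e 0 N →
      α * (N : ℝ) ^ e ≤ A.card → ∃ S : Finset ((Fin e → ℤ) × ℤ),
        (∀ p ∈ S, 1 ≤ p.2 ∧ p.2 ≤ N ∧ ∀ b, p.1 + p.2 • F b ∈ A) ∧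
        c * (N : ℝ) ^ (e + 1) ≤ S.card := by
  classical
  obtain ⟨δ, hδd⟩ : ∃ δ : ℝ, δ = α / (2 * 3 ^ e) := ⟨_, rfl⟩
  have hδ : 0 < δ := by rw [hδd]; positivity
  obtain ⟨r, hr⟩ := dhj_card (Fin (q + 1)) hδ
  simp only [Fintype.card_fin] at hr
  obtain ⟨C, hC⟩ : ∃ C : ℕ, C = ∑ b, ∑ j, (F b j).natAbs := ⟨_, rfl⟩
  have hFC : ∀ b j, |F b j| ≤ C := by
    intro b j
    rw [Int.abs_eq_natAbs, hC]
    have h1 : (F b j).natAbs ≤ ∑ j, (F b j).natAbs :=
      single_le_sum (f := fun j => (F b j).natAbs) (fun _ _ => Nat.zero_le _) (mem_univ j)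
    have h2 : ∑ j, (F b j).natAbs ≤ ∑ b, ∑ j, (F b j).natAbs :=
      single_le_sum (f := fun b => ∑ j, (F b j).natAbs) (fun _ _ => Nat.zero_le _) (mem_univ b)
    exact_mod_cast h1.trans h2
  obtain ⟨K, hK⟩ : ∃ K : ℕ, K = r * C + r + 1 := ⟨_, rfl⟩
  have hK1 : 1 ≤ K := by omega
  have hKR : (1 : ℝ) ≤ K := by exact_mod_cast hK1
  obtain ⟨T, hT⟩ : ∃ T : ℕ, T = (univ : Finset (Fin r → Option (Fin (q + 1)))).card := ⟨_, rfl⟩
  have hT1 : 1 ≤ T := by
    rw [hT]
    exact card_pos.2 ⟨fun _ => none, mem_univ _⟩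
  have hTR : (1 : ℝ) ≤ T := by exact_mod_cast hT1
  refine ⟨α / (4 * K * T), by positivity, K, fun N hN A hA hAc => ?_⟩
  obtain ⟨H, hH⟩ : ∃ H : ℕ, H = N / K := ⟨_, rfl⟩
  have hH1 : 1 ≤ H := by rw [hH]; exact (Nat.one_le_div_iff (by omega)).2 hN
  have hKH : K * H ≤ N := by rw [hH]; exact Nat.mul_div_le N K
  have hKH2 : N ≤ 2 * K * H := by
    have h1 : N < K * (N / K + 1) := Nat.lt_mul_div_succ N (by omega)
    rw [← hH] at h1
    nlinarith
  have hHR : (1 : ℝ) ≤ H := by exact_mod_cast hH1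
  set Q : Finset (Fin r → ℤ) := Fintype.piFinset (fun _ => Icc (1 : ℤ) H) with hQ
  have hQc : Q.card = H ^ r := by
    rw [hQ, Fintype.card_piFinset, prod_const, card_univ, Fintype.card_fin, Int.card_Icc]
    simp
  have hQm : ∀ h ∈ Q, ∀ i, 1 ≤ h i ∧ h i ≤ H := by
    intro h hh i
    rw [hQ, Fintype.mem_piFinset] at hh
    exact mem_Icc.1 (hh i)
  set B : Finset (Fin e → ℤ) := cube e (-(N : ℤ)) (2 * N) with hB
  have hBc : (B.card : ℝ) = 3 ^ e * (N : ℝ) ^ e := by
    rw [hB, card_cube]
    have h1 : ((2 * (N : ℤ) - -(N : ℤ))).toNat = 3 * N := by omega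
    rw [h1]
    push_cast
    rw [mul_pow]
  set Z := B ×ˢ Q with hZ
  have hrH : r * H * C ≤ N := by
    calc r * H * C = (r * C) * H := by ring
      _ ≤ K * H := Nat.mul_le_mul_right _ (by omega)
      _ ≤ N := hKH
  have hrH2 : r * H ≤ N := (Nat.mul_le_mul_right _ (by omega)).trans hKH
  -- the number of starting points for a word
  have hst : ∀ (u : Fin r → Fin (q + 1)), ∀ h ∈ Q,
      (B.filter (fun x => x + wpt F u h ∈ A)).card = A.card := by
    intro u h hh
    refine card_bij (fun x _ => x + wpt F u h) ?_ ?_ ?_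
    · intro x hx
      exact (mem_filter.1 hx).2
    · intro x _ y _ hxy
      exact add_right_cancel hxy
    · intro a ha
      refine ⟨a - wpt F u h, ?_, by simp⟩
      rw [mem_filter, sub_add_cancel]
      refine ⟨?_, ha⟩
      rw [hB, mem_cube]
      intro j
      have h1 := mem_cube.1 (hA ha) j
      have h2 := abs_le.1 (wpt_abs F hFC u (hQm h hh) j)
      have h3 : (r : ℤ) * H * C ≤ N := by exact_mod_cast hrH
      rw [Pi.sub_apply]
      constructor <;> linarith [h1.1, h1.2, h2.1, h2.2]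
  set W : ((Fin e → ℤ) × (Fin r → ℤ)) → Finset (Fin r → Fin (q + 1)) :=
    fun z => univ.filter (fun u => z.1 + wpt F u z.2 ∈ A) with hW
  have hWle : ∀ z, ((W z).card : ℝ) ≤ ((q : ℝ) + 1) ^ r := by
    intro z
    have h1 : (W z).card ≤ (q + 1) ^ r := by
      refine (card_filter_le _ _).trans ?_
      rw [card_univ, Fintype.card_fun, Fintype.card_fin, Fintype.card_fin]
    exact_mod_cast h1
  have hsum : ∑ z ∈ Z, ((W z).card : ℝ) = ((q : ℝ) + 1) ^ r * (H : ℝ) ^ r * A.card := by
    have h1 : ∀ z ∈ Z, ((W z).card : ℝ) =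
        ∑ u : Fin r → Fin (q + 1), if z.1 + wpt F u z.2 ∈ A then (1 : ℝ) else 0 := by
      intro z _
      rw [hW, card_filter]
      push_cast
      rfl
    rw [sum_congr rfl h1, sum_comm]
    have h2 : ∀ u ∈ (univ : Finset (Fin r → Fin (q + 1))),
        ∑ z ∈ Z, (if z.1 + wpt F u z.2 ∈ A then (1 : ℝ) else 0) = (H : ℝ) ^ r * A.card := by
      intro u _
      rw [hZ, sum_product_right]
      have h3 : ∀ h ∈ Q, ∑ x ∈ B, (if x + wpt F u h ∈ A then (1 : ℝ) else 0) = A.card := by
        intro h hh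
        rw [← hst u h hh, card_filter]
        push_cast
        rfl
      rw [sum_congr rfl h3, sum_const, nsmul_eq_mul, hQc]
      push_cast
      ring
    rw [sum_congr rfl h2, sum_const, nsmul_eq_mul, card_univ, Fintype.card_fun, Fintype.card_fin,
      Fintype.card_fin]
    push_cast
    ring
  set G := Z.filter (fun z => δ * ((q : ℝ) + 1) ^ r ≤ (W z).card) with hG
  have hGc : α / 2 * (N : ℝ) ^ e * (H : ℝ) ^ r ≤ G.card := by
    have hZc : (Z.card : ℝ) = 3 ^ e * (N : ℝ) ^ e * (H : ℝ) ^ r := by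
      rw [hZ, card_product]
      push_cast
      rw [hBc, hQc]
      push_cast
      ring
    have h1 : ∑ z ∈ Z, ((W z).card : ℝ) ≤
        ((q : ℝ) + 1) ^ r * G.card + δ * ((q : ℝ) + 1) ^ r * Z.card := by
      rw [← sum_filter_add_sum_filter_not Z (fun z => δ * ((q : ℝ) + 1) ^ r ≤ (W z).card)]
      refine add_le_add ?_ ?_
      · refine (sum_le_card_nsmul _ _ _ fun z _ => hWle z).trans (le_of_eq ?_)
        rw [nsmul_eq_mul, mul_comm]
      · refine (sum_le_card_nsmul _ _ (δ * ((q : ℝ) + 1) ^ r) fun z hz => ?_).trans ?_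
        · have := (mem_filter.1 hz).2
          push Not at this
          exact this.le
        · rw [nsmul_eq_mul, mul_comm]
          refine mul_le_mul_of_nonneg_left ?_ (by positivity)
          exact_mod_cast card_filter_le _ _
    rw [hsum, hZc] at h1
    have hq : (0 : ℝ) < ((q : ℝ) + 1) ^ r := by positivity
    have h2 : (H : ℝ) ^ r * A.card ≤ G.card + δ * (3 ^ e * (N : ℝ) ^ e * (H : ℝ) ^ r) := by
      have h3 : ((q : ℝ) + 1) ^ r * ((H : ℝ) ^ r * A.card) ≤
          ((q : ℝ) + 1) ^ r * (G.card + δ * (3 ^ e * (N : ℝ) ^ e * (H : ℝ) ^ r)) := by linarith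
      exact le_of_mul_le_mul_left h3 hq
    have h4 : δ * (3 ^ e * (N : ℝ) ^ e * (H : ℝ) ^ r) = α / 2 * (N : ℝ) ^ e * (H : ℝ) ^ r := by
      rw [hδd]
      field_simp
    have h5 : α * (N : ℝ) ^ e * (H : ℝ) ^ r ≤ (H : ℝ) ^ r * A.card := by
      rw [mul_comm ((H : ℝ) ^ r)]
      exact mul_le_mul_of_nonneg_right hAc (by positivity)
    rw [h4] at h2
    linarith
  -- the configurations
  set m : (Fin r → Option (Fin (q + 1))) → ((Fin e → ℤ) × (Fin r → ℤ)) → (Fin e → ℤ) × ℤ :=
    fun w z => (z.1 + fpt F w z.2, dpt w z.2) with hm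
  set Wo : Finset (Fin r → Option (Fin (q + 1))) := univ.filter (fun w => ∃ i, w i = none) with hWo
  set S : Finset ((Fin e → ℤ) × ℤ) := Wo.biUnion (fun w => (Z.image (m w)).filter
    (fun p => ∀ b, p.1 + p.2 • F b ∈ A)) with hS
  refine ⟨S, ?_, ?_⟩
  · intro p hp
    rw [hS, mem_biUnion] at hp
    obtain ⟨w, hw, hp⟩ := hp
    rw [mem_filter, mem_image] at hp
    obtain ⟨⟨z, hz, rfl⟩, hp⟩ := hp
    rw [hWo, mem_filter] at hw
    obtain ⟨-, i0, hi0⟩ := hw
    have hzQ := (mem_product.1 hz).2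
    have h1 := hQm z.2 hzQ
    refine ⟨?_, ?_, hp⟩
    · show 1 ≤ dpt w z.2
      unfold dpt
      have h2 : ∀ i ∈ (univ : Finset (Fin r)), (0 : ℤ) ≤ (w i).elim (z.2 i) (fun _ => 0) := by
        intro i _
        cases w i with
        | none => rw [Option.elim_none]; linarith [(h1 i).1]
        | some a => rw [Option.elim_some]
      have h3 := single_le_sum h2 (mem_univ i0)
      rw [hi0, Option.elim_none] at h3
      exact (h1 i0).1.trans h3
    · show dpt w z.2 ≤ N
      unfold dpt
      have h2 : ∀ i ∈ (univ : Finset (Fin r)), (w i).elim (z.2 i) (fun _ => 0) ≤ (H : ℤ) := by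
        intro i _
        cases w i with
        | none => rw [Option.elim_none]; exact (h1 i).2
        | some a => rw [Option.elim_some]; exact Int.natCast_nonneg _
      refine (sum_le_card_nsmul _ _ _ h2).trans ?_
      rw [card_univ, Fintype.card_fin, nsmul_eq_mul]
      exact_mod_cast hrH2
  · -- counting
    have hcov : G ⊆ Wo.biUnion (fun w => Z.filter (fun z => m w z ∈ S)) := by
      intro z hz
      rw [hG, mem_filter] at hz
      obtain ⟨L, hL⟩ := hr (W z) (by push_cast; exact hz.2) (by omega)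
      obtain ⟨i0, hi0⟩ := L.proper
      have hw : L.idxFun ∈ Wo := by
        rw [hWo, mem_filter]
        exact ⟨mem_univ _, i0, hi0⟩
      rw [mem_biUnion]
      refine ⟨L.idxFun, hw, ?_⟩
      rw [mem_filter]
      refine ⟨hz.1, ?_⟩
      rw [hS, mem_biUnion]
      refine ⟨L.idxFun, hw, ?_⟩
      rw [mem_filter]
      refine ⟨mem_image_of_mem _ hz.1, fun b => ?_⟩
      have h1 := hL b
      rw [hW, mem_filter] at h1
      have h2 : (L b : Fin r → Fin (q + 1)) = fun i => (L.idxFun i).getD b := by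
        funext i
        rfl
      have h3 := h1.2
      rw [h2, wpt_eq, ← add_assoc] at h3
      exact h3
    obtain hr0 | ⟨r', hr'⟩ : r = 0 ∨ ∃ r', r = r' + 1 := by
      rcases r with _ | r'
      · exact Or.inl rfl
      · exact Or.inr ⟨r', rfl⟩
    · -- no words: the left side is empty
      have hWoe : Wo = ∅ := by
        rw [hWo, filter_eq_empty_iff]
        rintro w - ⟨i, -⟩
        rw [hr0] at i
        exact i.elim0
      rw [hWoe] at hcov
      have hG0 : G = ∅ := by
        rw [biUnion_empty] at hcov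
        exact subset_empty.1 hcov
      rw [hG0] at hGc
      have hN1 : (0 : ℝ) < N := by exact_mod_cast (by omega : 0 < N)
      have h1 : 0 < α / 2 * (N : ℝ) ^ e * (H : ℝ) ^ r := by positivity
      rw [card_empty] at hGc
      push_cast at hGc
      linarith
    · have hfib : ∀ w ∈ Wo, (Z.filter (fun z => m w z ∈ S)).card ≤ H ^ r' * S.card := by
        intro w hw
        rw [hWo, mem_filter] at hw
        obtain ⟨-, i0, hi0⟩ := hw
        refine card_le_mul_card_image_of_maps_to (f := m w) (fun z hz => (mem_filter.1 hz).2) _ ?_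
        intro p _
        subst hr'
        have h1 : (Fintype.piFinset (fun _ : Fin r' => Icc (1 : ℤ) H)).card = H ^ r' := by
          rw [Fintype.card_piFinset, prod_const, card_univ, Fintype.card_fin, Int.card_Icc]
          simp
        rw [← h1]
        refine card_le_card_of_injOn (fun z => fun l => z.2 (i0.succAbove l)) ?_ ?_
        · intro z hz
          rw [mem_coe, mem_filter, mem_filter] at hz
          rw [mem_coe, Fintype.mem_piFinset]
          intro l
          rw [mem_Icc]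
          exact hQm z.2 (mem_product.1 hz.1.1).2 _
        · intro z hz z' hz' h
          rw [mem_coe, mem_filter] at hz hz'
          have h2 : ∀ l, z.2 (i0.succAbove l) = z'.2 (i0.succAbove l) := fun l => congrFun h l
          have h3 := hz.2.trans hz'.2.symm
          have h4 : dpt w z.2 = dpt w z'.2 := congrArg Prod.snd h3
          have h5 : z.2 i0 = z'.2 i0 := by
            unfold dpt at h4
            rw [Fin.sum_univ_succAbove _ i0, Fin.sum_univ_succAbove _ i0] at h4
            simp only [h2, hi0, Option.elim_none] at h4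
            linarith
          have h6 : z.2 = z'.2 := by
            funext i
            rcases Fin.eq_self_or_eq_succAbove i0 i with h7 | ⟨l, h7⟩
            · rw [h7, h5]
            · rw [h7, h2]
          have h7 : z.1 + fpt F w z.2 = z'.1 + fpt F w z'.2 := congrArg Prod.fst h3
          rw [h6] at h7
          exact Prod.ext (add_right_cancel h7) h6
      have h1 : G.card ≤ T * (H ^ r' * S.card) := by
        refine (card_le_card hcov).trans (card_biUnion_le.trans ?_)
        refine (sum_le_card_nsmul _ _ _ hfib).trans ?_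
        rw [smul_eq_mul]
        refine Nat.mul_le_mul_right _ ?_
        rw [hT]
        exact card_filter_le _ _
      have h2 : (G.card : ℝ) ≤ T * ((H : ℝ) ^ r' * S.card) := by exact_mod_cast h1
      have h3 := hGc.trans h2
      have h3' : α / 2 * (N : ℝ) ^ e * ((H : ℝ) ^ r' * H) ≤ T * ((H : ℝ) ^ r' * S.card) := by
        rw [← pow_succ, ← hr']
        exact h3
      have h4 : α / 2 * (N : ℝ) ^ e * H ≤ T * S.card := by
        have h5 : (H : ℝ) ^ r' * (α / 2 * (N : ℝ) ^ e * H) ≤ (H : ℝ) ^ r' * (T * S.card) := by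
          linarith
        exact le_of_mul_le_mul_left h5 (by positivity)
      have h5 : (N : ℝ) ≤ 2 * K * H := by exact_mod_cast hKH2
      rw [div_mul_eq_mul_div, div_le_iff₀ (by positivity)]
      have h6 : (0 : ℝ) ≤ (N : ℝ) ^ e := by positivity
      calc α * (N : ℝ) ^ (e + 1) = α * (N : ℝ) ^ e * N := by ring
        _ ≤ α * (N : ℝ) ^ e * (2 * K * H) := mul_le_mul_of_nonneg_left h5 (by positivity)
        _ = 4 * K * (α / 2 * (N : ℝ) ^ e * H) := by ring
        _ ≤ 4 * K * (T * S.card) := mul_le_mul_of_nonneg_left h4 (by positivity)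
        _ = S.card * (4 * K * T) := by ring

end Pool.Agent.J4.H12.IE
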