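import Pool.Agent.J4.H12.IE.Count
import Pool.Agent.J4.H12.IE.Varn

/-! Cliques of hypergraphs; the multidimensional Szemerédi theorem with common differences of
prescribed total stopping time. -/

set_option autoImplicit false

namespace Pool.Agent.J4.H12.IE

open Finset Filter Topology
open Pool.Agent.H499R2.ND (Tn Dn Phi)
open Pool.Agent.W36.JL
open Pool.Agent.W36.GK (box dot)

theorem SX_pos {m : ℕ} {a : ℤ} {x : ℝ} {n : ℤ} (h : n ∈ SX m a x) : 0 < n := h.1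

/-- cliques of arbitrary hypergraphs -/
theorem cliques {s m : ℕ} (hm : 1 ≤ m) {δ : ℝ} (h0 : 0 < δ) (h1 : δ ≤ 1)
    (hlaw : ∀ a : ℤ, ∀ x : ℝ, Dn (fun n => EB m a (bd x n) n) (δ * Phi x / m))
    {κ : Fin (s + 1) → ℤ} (hκ : ∀ j, κ j ≠ 0) (a : ℤ) (x : ℝ) {ε : ℝ} (hε : 0 < ε) :
    ∃ N0 : ℕ, ∀ N : ℕ, N0 ≤ N → ∀ H : Fin (s + 1) → Set (Fin (s + 1) → ℤ),
      (∀ j v w, (∀ i, i ≠ j → v i = w i) → (v ∈ H j ↔ w ∈ H j)) → ∀ c : ℤ, |c| ≤ N →
      |({v : Fin (s + 1) → ℤ | (∀ j, 1 ≤ v j ∧ v j ≤ N) ∧ (∀ j, v ∈ H j) ∧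
          (∑ j, κ j * v j + c) ∈ SX m a x}.ncard : ℝ) - δ * Phi x / m *
        {v : Fin (s + 1) → ℤ | (∀ j, 1 ≤ v j ∧ v j ≤ N) ∧ (∀ j, v ∈ H j) ∧
          0 < ∑ j, κ j * v j + c}.ncard| ≤ ε * (N : ℝ) ^ (s + 1) := by
  classical
  obtain ⟨W, hW⟩ : ∃ W : ℕ, W = ∑ j, (κ j).natAbs + 1 := ⟨_, rfl⟩
  have hW1 : 1 ≤ W := by omega
  have hWR : (1 : ℝ) ≤ W := by exact_mod_cast hW1
  have hκ0 : κ ≠ 0 := by
    intro h
    exact hκ 0 (by rw [h]; rfl)
  obtain ⟨X0, h⟩ := count_inv (K := s + 1) hm h0 h1 hlaw hκ0 (fun l => Pi.single l 1) (by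
    intro l
    unfold dot
    rw [sum_eq_single l]
    · rw [Pi.single_eq_same, mul_one]; exact hκ l
    · intro j _ hj
      rw [Pi.single_eq_of_ne hj, mul_zero]
    · intro h; exact absurd (mem_univ l) h) a x (ε := ε / (W : ℝ) ^ (s + 1)) (by positivity)
  refine ⟨X0, fun N hN H hH c hc => ?_⟩
  have hNW : N ≤ W * N := Nat.le_mul_of_pos_left _ (by omega)
  have h2 := h (W * N) (by omega) H (by
    intro l w
    apply hH
    intro i hi
    rw [Pi.add_apply, Pi.single_eq_of_ne hi, add_zero]) c 0 (W * N) (Nat.zero_le _) le_rfl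
    (fun _ => 0) (fun _ => N) (by
    intro j
    rw [sub_zero]
    exact_mod_cast hNW)
  have hval : ∀ v : Fin (s + 1) → ℤ, (∀ j, 1 ≤ v j ∧ v j ≤ N) →
      ∑ j, κ j * v j + c ≤ ((W * N : ℕ) : ℤ) := by
    intro v hv
    have e1 : ∑ j, κ j * v j ≤ ∑ j, |κ j| * N := by
      refine sum_le_sum fun j _ => ?_
      calc κ j * v j ≤ |κ j| * v j := mul_le_mul_of_nonneg_right (le_abs_self _) (by linarith [(hv j).1])
        _ ≤ |κ j| * N := mul_le_mul_of_nonneg_left (hv j).2 (abs_nonneg _)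
    have e2 := (abs_le.1 hc).2
    rw [hW]
    push_cast
    rw [← sum_mul] at e1
    linarith
  have e1 : Pts κ c 0 (W * N) (fun _ => 0) (fun _ => (N : ℤ)) H (SX m a x) =
      {v : Fin (s + 1) → ℤ | (∀ j, 1 ≤ v j ∧ v j ≤ N) ∧ (∀ j, v ∈ H j) ∧
          (∑ j, κ j * v j + c) ∈ SX m a x}.ncard := by
    unfold Pts
    congr 1
    ext v
    simp only [Set.mem_ofPred_eq]
    constructor
    · rintro ⟨a1, a2, a3, a4, a5⟩
      exact ⟨fun j => ⟨by have := (a1 j).1; omega, (a1 j).2⟩, a2, a3⟩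
    · rintro ⟨a1, a2, a3⟩
      exact ⟨fun j => ⟨by have := (a1 j).1; omega, (a1 j).2⟩, a2, a3, by
        have := SX_pos a3
        exact_mod_cast this, hval v a1⟩
  have e2 : Pts κ c 0 (W * N) (fun _ => 0) (fun _ => (N : ℤ)) H Set.univ =
      {v : Fin (s + 1) → ℤ | (∀ j, 1 ≤ v j ∧ v j ≤ N) ∧ (∀ j, v ∈ H j) ∧
          0 < ∑ j, κ j * v j + c}.ncard := by
    unfold Pts
    congr 1
    ext v
    simp only [Set.mem_ofPred_eq, Set.mem_univ, true_and]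
    constructor
    · rintro ⟨a1, a2, a4, a5⟩
      exact ⟨fun j => ⟨by have := (a1 j).1; omega, (a1 j).2⟩, a2, by exact_mod_cast a4⟩
    · rintro ⟨a1, a2, a3⟩
      exact ⟨fun j => ⟨by have := (a1 j).1; omega, (a1 j).2⟩, a2, by exact_mod_cast a3, hval v a1⟩
  rw [e1, e2] at h2
  refine h2.trans (le_of_eq ?_)
  push_cast
  rw [mul_pow]
  field_simp

/-- the multidimensional Szemerédi theorem with common differences of prescribed total stopping time -/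
theorem szem {e q m : ℕ} (hm : 1 ≤ m) {δ : ℝ} (h0 : 0 < δ) (h1 : δ ≤ 1)
    (hlaw : ∀ a : ℤ, ∀ x : ℝ, Dn (fun n => EB m a (bd x n) n) (δ * Phi x / m))
    (F : Fin (q + 1) → Fin e → ℤ) (a : ℤ) {x y : ℝ} (hxy : y < x) {α : ℝ} (hα : 0 < α) :
    ∃ c : ℝ, 0 < c ∧ ∃ N0 : ℕ, ∀ N : ℕ, N0 ≤ N → ∀ A : Finset (Fin e → ℤ), A ⊆ cube e 0 N →
      α * (N : ℝ) ^ e ≤ A.card → c * (N : ℝ) ^ (e + 1) ≤
        ({p : (Fin e → ℤ) × ℤ | 1 ≤ p.2 ∧ p.2 ≤ N ∧ (∀ b, p.1 + p.2 • F b ∈ A) ∧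
          p.2 ∈ SX m a x \ SX m a y}.ncard : ℝ) := by
  classical
  obtain ⟨c1, hc1, N1, hS⟩ := many e q F hα
  obtain ⟨C, hC⟩ : ∃ C : ℕ, C = ∑ b, ∑ j, (F b j).natAbs := ⟨_, rfl⟩
  have hFC : ∀ b j, |F b j| ≤ C := by
    intro b j
    rw [Int.abs_eq_natAbs, hC]
    have h1 : (F b j).natAbs ≤ ∑ j, (F b j).natAbs :=
      single_le_sum (f := fun j => (F b j).natAbs) (fun _ _ => Nat.zero_le _) (mem_univ j)
    have h2 : ∑ j, (F b j).natAbs ≤ ∑ b, ∑ j, (F b j).natAbs :=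
      single_le_sum (f := fun b => ∑ j, (F b j).natAbs) (fun _ _ => Nat.zero_le _) (mem_univ b)
    exact_mod_cast h1.trans h2
  obtain ⟨β, hβ⟩ : ∃ β : ℝ → ℝ, β = fun x => δ * Phi x / m := ⟨_, rfl⟩
  have hm0 : (0 : ℝ) < m := by exact_mod_cast hm
  have hβxy : 0 < β x - β y := by
    rw [hβ]
    simp only
    rw [← sub_div, ← mul_sub]
    have := Phi_lt hxy
    have h2 : 0 < Phi x - Phi y := by linarith
    positivity
  obtain ⟨V, hV⟩ : ∃ V : ℕ, V = 2 * (C + 1) := ⟨_, rfl⟩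
  have hV1 : 1 ≤ V := by omega
  have hVR : (1 : ℝ) ≤ V := by exact_mod_cast hV1
  obtain ⟨ε, hε⟩ : ∃ ε : ℝ, ε = (β x - β y) * c1 / (4 * (V : ℝ) ^ (e + 1)) := ⟨_, rfl⟩
  have hε0 : 0 < ε := by rw [hε]; positivity
  set Λ : Fin (e + 1) → ℤ := Pi.single 0 1 with hΛ
  have hdot : ∀ w : Fin (e + 1) → ℤ, ∑ j, Λ j * w j = w 0 := by
    intro w
    rw [sum_eq_single 0]
    · rw [hΛ, Pi.single_eq_same, one_mul]
    · intro j _ hj
      rw [hΛ, Pi.single_eq_of_ne hj, zero_mul]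
    · intro h; exact absurd (mem_univ _) h
  have hΛ0 : Λ ≠ 0 := by
    intro h
    have := congrFun h 0
    rw [hΛ, Pi.single_eq_same] at this
    exact one_ne_zero this
  set v : Fin (q + 1) → Fin (e + 1) → ℤ := fun b => Fin.cons 1 (-F b) with hv
  have hvd : ∀ b, dot Λ (v b) ≠ 0 := by
    intro b
    show ∑ j, Λ j * v b j ≠ 0
    rw [hdot]
    exact one_ne_zero
  obtain ⟨X1, k1⟩ := count_inv hm h0 h1 hlaw hΛ0 v hvd a x hε0
  obtain ⟨X2, k2⟩ := count_inv hm h0 h1 hlaw hΛ0 v hvd a y hε0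
  refine ⟨(β x - β y) * c1 / 2, by positivity, N1 + X1 + X2, fun N hN A hA hAc => ?_⟩
  obtain ⟨S, hSp, hSc⟩ := hS N (by omega) A hA hAc
  set E : Fin (q + 1) → Set (Fin (e + 1) → ℤ) := fun b => {w | Fin.tail w + w 0 • F b ∈ A} with hE
  have hEi : ∀ l w, w + v l ∈ E l ↔ w ∈ E l := by
    intro l w
    simp only [hE, Set.mem_ofPred_eq]
    have e1 : Fin.tail (w + v l) + (w + v l) 0 • F l = Fin.tail w + w 0 • F l := by
      funext j
      simp only [Fin.tail, Pi.add_apply, Pi.smul_apply, smul_eq_mul, hv, Fin.cons_succ, Fin.cons_zero,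
        Pi.neg_apply]
      ring
    rw [e1]
  obtain ⟨R, hR⟩ : ∃ R : ℕ, R = (C + 1) * N := ⟨_, rfl⟩
  set P : Fin (e + 1) → ℤ := Fin.cons 0 (fun _ => -(R : ℤ)) with hP
  set P' : Fin (e + 1) → ℤ := Fin.cons (N : ℤ) (fun _ => (R : ℤ)) with hP'
  have hVN : N ≤ V * N := Nat.le_mul_of_pos_left _ (by omega)
  have hbox : ∀ j, P' j - P j ≤ ((V * N : ℕ) : ℤ) := by
    intro j
    refine Fin.cases ?_ (fun j => ?_) j
    · rw [hP, hP', Fin.cons_zero, Fin.cons_zero, sub_zero]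
      exact_mod_cast hVN
    · rw [hP, hP', Fin.cons_succ, Fin.cons_succ, hR, hV]
      push_cast
      linarith
  have hX1 : X1 ≤ V * N := by omega
  have hX2 : X2 ≤ V * N := by omega
  have g1 := k1 (V * N) hX1 E hEi 0 0 N (Nat.zero_le _) hVN P P' hbox
  have g2 := k2 (V * N) hX2 E hEi 0 0 N (Nat.zero_le _) hVN P P' hbox
  have hβx : δ * Phi x / m = β x := by rw [hβ]
  have hβy : δ * Phi y / m = β y := by rw [hβ]
  rw [hβx] at g1
  rw [hβy] at g2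
  -- the number of all configurations
  have hfin : ∀ Y : Set ℤ, {w : Fin (e + 1) → ℤ | (∀ j, P j < w j ∧ w j ≤ P' j) ∧ (∀ l, w ∈ E l) ∧
      (∑ j, Λ j * w j + 0) ∈ Y ∧ ((0 : ℕ) : ℤ) < ∑ j, Λ j * w j + 0 ∧
      ∑ j, Λ j * w j + 0 ≤ N}.Finite := by
    intro Y
    refine Set.Finite.subset (box P P').finite_toSet fun w hw => ?_
    rw [mem_coe, Pool.Agent.W36.GK.mem_box]
    exact hw.1
  have hall : (S.card : ℝ) ≤ Pts Λ 0 0 N P P' E Set.univ := by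
    unfold Pts
    have h3 : (S.image (fun p : (Fin e → ℤ) × ℤ => (Fin.cons p.2 p.1 : Fin (e + 1) → ℤ))).card = S.card := by
      refine card_image_of_injective _ fun p p' hpp => ?_
      have e1 := congrFun hpp 0
      rw [Fin.cons_zero, Fin.cons_zero] at e1
      have e2 : p.1 = p'.1 := by
        funext j
        have := congrFun hpp j.succ
        rwa [Fin.cons_succ, Fin.cons_succ] at this
      exact Prod.ext e2 e1
    have h5 : ((S.image (fun p : (Fin e → ℤ) × ℤ => (Fin.cons p.2 p.1 : Fin (e + 1) → ℤ)) :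
        Finset (Fin (e + 1) → ℤ)) : Set (Fin (e + 1) → ℤ)) ⊆
        {w : Fin (e + 1) → ℤ | (∀ j, P j < w j ∧ w j ≤ P' j) ∧ (∀ l, w ∈ E l) ∧
      (∑ j, Λ j * w j + 0) ∈ (Set.univ : Set ℤ) ∧ ((0 : ℕ) : ℤ) < ∑ j, Λ j * w j + 0 ∧
      ∑ j, Λ j * w j + 0 ≤ N} := by
      intro w hw
      rw [mem_coe, mem_image] at hw
      obtain ⟨p, hp, rfl⟩ := hw
      obtain ⟨b1, b2, b3⟩ := hSp p hp
      refine ⟨?_, ?_, Set.mem_univ _, ?_, ?_⟩
      · intro j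
        refine Fin.cases ?_ (fun j => ?_) j
        · rw [hP, hP', Fin.cons_zero, Fin.cons_zero, Fin.cons_zero]
          exact ⟨by omega, b2⟩
        · rw [hP, hP', Fin.cons_succ, Fin.cons_succ, Fin.cons_succ]
          have b4 := mem_cube.1 (hA (b3 0)) j
          rw [Pi.add_apply, Pi.smul_apply, smul_eq_mul] at b4
          have b5 : |p.2 * F 0 j| ≤ N * C := by
            rw [abs_mul, abs_of_nonneg (by omega : 0 ≤ p.2)]
            exact mul_le_mul b2 (hFC 0 j) (abs_nonneg _) (Int.natCast_nonneg _)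
          have b6 := abs_le.1 b5
          rw [hR]
          push_cast
          constructor <;> nlinarith [b4.1, b4.2, b6.1, b6.2]
      · intro l
        show Fin.tail (Fin.cons p.2 p.1 : Fin (e + 1) → ℤ) + (Fin.cons p.2 p.1 : Fin (e + 1) → ℤ) 0 • F l ∈ A
        rw [Fin.tail_cons, Fin.cons_zero]
        exact b3 l
      · rw [hdot, Fin.cons_zero]
        push_cast
        omega
      · rw [hdot, Fin.cons_zero]
        omega
    have h6 := Set.ncard_le_ncard h5 (hfin Set.univ)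
    rw [Set.ncard_coe_finset, h3] at h6
    exact_mod_cast h6
  -- the configurations with a difference in the level set
  have hdiff : (Pts Λ 0 0 N P P' E (SX m a x) : ℝ) - Pts Λ 0 0 N P P' E (SX m a y) ≤
      ({p : (Fin e → ℤ) × ℤ | 1 ≤ p.2 ∧ p.2 ≤ N ∧ (∀ b, p.1 + p.2 • F b ∈ A) ∧
          p.2 ∈ SX m a x \ SX m a y}.ncard : ℝ) := by
    have hfin2 : {p : (Fin e → ℤ) × ℤ | 1 ≤ p.2 ∧ p.2 ≤ N ∧ (∀ b, p.1 + p.2 • F b ∈ A) ∧
          p.2 ∈ SX m a x \ SX m a y}.Finite := by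
      refine Set.Finite.subset (((A ×ˢ Icc (1 : ℤ) N).image
        (fun z : (Fin e → ℤ) × ℤ => (z.1 - z.2 • F 0, z.2))).finite_toSet) fun p hp => ?_
      obtain ⟨d1, d2, d3, -⟩ := hp
      rw [mem_coe, mem_image]
      refine ⟨(p.1 + p.2 • F 0, p.2), mem_product.2 ⟨d3 0, mem_Icc.2 ⟨d1, d2⟩⟩, ?_⟩
      simp
    have h3 : Pts Λ 0 0 N P P' E (SX m a x) ≤ Pts Λ 0 0 N P P' E (SX m a y) +
        {p : (Fin e → ℤ) × ℤ | 1 ≤ p.2 ∧ p.2 ≤ N ∧ (∀ b, p.1 + p.2 • F b ∈ A) ∧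
          p.2 ∈ SX m a x \ SX m a y}.ncard := by
      have h4 : ((fun p : (Fin e → ℤ) × ℤ => (Fin.cons p.2 p.1 : Fin (e + 1) → ℤ)) ''
          {p : (Fin e → ℤ) × ℤ | 1 ≤ p.2 ∧ p.2 ≤ N ∧ (∀ b, p.1 + p.2 • F b ∈ A) ∧
          p.2 ∈ SX m a x \ SX m a y}).ncard = {p : (Fin e → ℤ) × ℤ | 1 ≤ p.2 ∧ p.2 ≤ N ∧
          (∀ b, p.1 + p.2 • F b ∈ A) ∧ p.2 ∈ SX m a x \ SX m a y}.ncard := by
        refine Set.ncard_image_of_injective _ fun p p' hpp => ?_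
        have e1 := congrFun hpp 0
        rw [Fin.cons_zero, Fin.cons_zero] at e1
        have e2 : p.1 = p'.1 := by
          funext j
          have := congrFun hpp j.succ
          rwa [Fin.cons_succ, Fin.cons_succ] at this
        exact Prod.ext e2 e1
      rw [← h4]
      unfold Pts
      refine (Set.ncard_le_ncard ?_ ((hfin _).union (hfin2.image _))).trans (Set.ncard_union_le _ _)
      intro w hw
      obtain ⟨a1, a2, a3, a4, a5⟩ := hw
      by_cases hy : (∑ j, Λ j * w j + 0) ∈ SX m a y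
      · exact Or.inl ⟨a1, a2, hy, a4, a5⟩
      · refine Or.inr ⟨(Fin.tail w, w 0), ⟨?_, ?_, ?_, ?_, ?_⟩, ?_⟩
        · rw [hdot] at a4
          push_cast at a4
          show 1 ≤ w 0
          omega
        · rw [hdot] at a5
          show w 0 ≤ N
          omega
        · intro b
          exact a2 b
        · rw [hdot, add_zero] at a3
          exact a3
        · rw [hdot, add_zero] at hy
          exact hy
        · exact Fin.cons_self_tail w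
    have h4 : (Pts Λ 0 0 N P P' E (SX m a x) : ℝ) ≤ Pts Λ 0 0 N P P' E (SX m a y) +
        ({p : (Fin e → ℤ) × ℤ | 1 ≤ p.2 ∧ p.2 ≤ N ∧ (∀ b, p.1 + p.2 • F b ∈ A) ∧
          p.2 ∈ SX m a x \ SX m a y}.ncard : ℝ) := by exact_mod_cast h3
    linarith
  have g1' := (abs_le.1 g1).1
  have g2' := (abs_le.1 g2).2
  have hTot : c1 * (N : ℝ) ^ (e + 1) ≤ Pts Λ 0 0 N P P' E Set.univ := hSc.trans hall
  have h5 : (β x - β y) * (c1 * (N : ℝ) ^ (e + 1)) ≤ (β x - β y) * Pts Λ 0 0 N P P' E Set.univ :=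
    mul_le_mul_of_nonneg_left hTot hβxy.le
  have h6 : ε * ((V * N : ℕ) : ℝ) ^ (e + 1) = (β x - β y) * c1 / 4 * (N : ℝ) ^ (e + 1) := by
    rw [hε]
    push_cast
    rw [mul_pow]
    field_simp
  rw [h6] at g1' g2'
  have h7 : (β x - β y) * c1 / 2 * (N : ℝ) ^ (e + 1) = (β x - β y) * (c1 * (N : ℝ) ^ (e + 1)) -
      2 * ((β x - β y) * c1 / 4 * (N : ℝ) ^ (e + 1)) := by ring
  rw [h7]
  refine le_trans ?_ hdiff
  have h8 : (β x - β y) * (Pts Λ 0 0 N P P' E Set.univ : ℝ) =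
    β x * Pts Λ 0 0 N P P' E Set.univ - β y * Pts Λ 0 0 N P P' E Set.univ := by ring
  linarith

end Pool.Agent.J4.H12.IE
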