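import Pool.Agent.W36.GK.K18

/-! Sums of a function of one linear form against functions invariant under translations that change
the form (a directional version of `Pool.Agent.W36.GK.forms_small`). -/

set_option autoImplicit false

namespace Pool.Agent.J4.H12.IE

open Finset Pool.Agent.W36.GU Pool.Agent.W36.GV Pool.Agent.W36.GK

/-- invariance under a translation implies invariance under its multiples -/
theorem inv_zsmul {D : ℕ} {f : (Fin D → ℤ) → ℝ} {v : Fin D → ℤ} (hf : ∀ x, f (x + v) = f x) (t : ℤ) :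
    ∀ x, f (x + t • v) = f x := by
  have h1 : ∀ n : ℕ, ∀ x, f (x + (n : ℤ) • v) = f x := by
    intro n
    induction n with
    | zero => intro x; simp
    | succ n ih =>
      intro x
      have e : x + ((n + 1 : ℕ) : ℤ) • v = (x + (n : ℤ) • v) + v := by
        push_cast
        rw [add_smul, one_smul, add_assoc]
      rw [e, hf, ih]
  intro x
  obtain ⟨n, rfl | rfl⟩ := t.eq_nat_or_neg
  · exact h1 n x
  · have h2 := h1 n (x + (-(n : ℤ)) • v)
    rw [add_assoc, ← add_smul] at h2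
    simp only [neg_add_cancel, zero_smul, add_zero] at h2
    exact h2.symm

theorem inv_small {D K : ℕ} {Λ : Fin (D + 1) → ℤ} (h0 : Λ ≠ 0) (v : Fin (K + 1) → Fin (D + 1) → ℤ)
    (hv : ∀ l, dot Λ (v l) ≠ 0) {ε : ℝ} (hε : 0 < ε) :
    ∃ δ : ℝ, 0 < δ ∧ ∃ X0 : ℕ, ∀ X : ℕ, X0 ≤ X → ∀ c : ℤ, ∀ P P' : Fin (D + 1) → ℤ,
    (∀ j, P' j - P j ≤ X) → ∀ F : ℤ → ℝ, B1 F → Sup F X → GN (K + 2) F X ≤ δ * (X : ℝ) ^ (K + 3) →
    ∀ f : Fin (K + 1) → (Fin (D + 1) → ℤ) → ℝ, (∀ l x, |f l x| ≤ 1) → (∀ l x, f l (x + v l) = f l x) →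
    |∑ x ∈ box P P', F (dot Λ x + c) * ∏ l, f l x| ≤ ε * (X : ℝ) ^ (D + 1) := by
  classical
  obtain ⟨V, hV⟩ : ∃ V : ℕ, V = ∑ l, ∑ j, (v l j).natAbs := ⟨_, rfl⟩
  have hV0 : (0 : ℝ) ≤ V := Nat.cast_nonneg _
  obtain ⟨η, hη⟩ : ∃ η : ℝ, η = min (ε / (8 * (V + 1))) (1 / 2) := ⟨_, rfl⟩
  have hη0 : 0 < η := by rw [hη]; exact lt_min (by positivity) (by norm_num)
  have hη2 : η ≤ 1 / 2 := by rw [hη]; exact min_le_right _ _
  have hη1 : 8 * V * η ≤ ε := by
    have h1 : η ≤ ε / (8 * (V + 1)) := by rw [hη]; exact min_le_left _ _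
    rw [le_div_iff₀ (by positivity)] at h1
    linarith
  obtain ⟨δ, hδ, hPK⟩ := PK_all K (fun l => dot Λ (v l)) hv (η ^ (K + 1) * (ε / 4)) (by positivity)
  obtain ⟨X1, hX1⟩ := exists_nat_ge (8 * V / ε)
  refine ⟨δ, hδ, X1 + 2, fun X hX c P P' hP F hF hs hG f hf hfi => ?_⟩
  have hX2 : (2 : ℝ) ≤ X := by exact_mod_cast (by omega : 2 ≤ X)
  have hX0 : (0 : ℝ) < X := by linarith
  have hXV : 8 * V ≤ ε * X := by
    rw [div_le_iff₀ hε] at hX1
    have : (X1 : ℝ) ≤ X := by exact_mod_cast (by omega : X1 ≤ X)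
    have := mul_le_mul_of_nonneg_right this hε.le
    linarith
  obtain ⟨H, hH⟩ : ∃ H : ℕ, H = ⌊η * X⌋₊ + 1 := ⟨_, rfl⟩
  have hH1 : η * X ≤ H := by rw [hH]; push_cast; exact (Nat.lt_floor_add_one _).le
  have hH2 : (H : ℝ) ≤ η * X + 1 := by
    rw [hH]; push_cast
    have := Nat.floor_le (show 0 ≤ η * X by positivity)
    linarith
  have hHX : H ≤ X := by
    have h1 : (H : ℝ) ≤ X := by
      have := mul_le_mul_of_nonneg_right hη2 hX0.le
      linarith
    exact_mod_cast h1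
  have hH0 : (0 : ℝ) < H := lt_of_lt_of_le (by positivity) hH1
  set Φ : (Fin (D + 1) → ℤ) → ℝ := fun x => F (dot Λ x + c) * ∏ l, f l x with hΦ
  have hΦ1 : ∀ x, |Φ x| ≤ 1 := by
    intro x
    simp only [hΦ]
    rw [abs_mul, abs_prod]
    exact mul_le_one₀ (hF _) (prod_nonneg fun _ _ => abs_nonneg _)
      (prod_le_one (fun _ _ => abs_nonneg _) fun i _ => hf i _)
  set w : (Fin (K + 1) → ℤ) → (Fin (D + 1) → ℤ) := fun h j => ∑ l, h l * v l j with hw
  have hwV : ∀ h ∈ cb (K + 1) H, ∑ j, (w h j).natAbs ≤ H * V := by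
    intro h hh
    rw [mem_cb] at hh
    have h1 : ∀ j, (w h j).natAbs ≤ ∑ l, H * (v l j).natAbs := by
      intro j
      simp only [hw]
      refine (Int.natAbs_sum_le _ _).trans (sum_le_sum fun l _ => ?_)
      rw [Int.natAbs_mul]
      apply Nat.mul_le_mul_right
      have := hh l
      omega
    refine (sum_le_sum fun j _ => h1 j).trans (le_of_eq ?_)
    rw [hV, sum_comm, mul_sum]
    apply sum_congr rfl; intro l _
    rw [mul_sum]
  have hdiff : ∀ h ∈ cb (K + 1) H, |∑ x ∈ box P P', Φ x - ∑ x ∈ box P P', Φ (x + w h)| ≤ 2 * (H * V) * (X : ℝ) ^ D := by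
    intro h hh
    refine (box_shift hP (w h) hΦ1).trans ?_
    apply mul_le_mul_of_nonneg_right _ (by positivity)
    apply mul_le_mul_of_nonneg_left _ (by norm_num)
    exact_mod_cast hwV h hh
  set n : (Fin (D + 1) → ℤ) → ℤ := fun x => dot Λ x + c with hn
  set b : (Fin (D + 1) → ℤ) → Fin (K + 1) → (Fin (K + 1) → ℤ) → ℝ := fun x j h => f j (x + w h) with hb
  have hprod : ∀ x h, Φ (x + w h) = F (n x + ∑ l, dot Λ (v l) * h l) * ∏ j, b x j h := by
    intro x h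
    simp only [hΦ, hb, hn]
    rw [dot_add]
    have e1 : dot Λ (w h) = ∑ l, dot Λ (v l) * h l := dot_sum _ _ _
    rw [e1]
    congr 2
    ring
  have hmain := hPK X H (by omega) hHX F hF hs hG (box P P') n ((X : ℝ) ^ D) (by positivity) (by
    intro y
    have h1 := box_fiber hP h0 (y - c)
    have h2 : (box P P').filter (fun x => n x = y) = (box P P').filter (fun x => dot Λ x = y - c) := by
      apply filter_congr
      intro x _
      simp only [hn]
      constructor <;> intro h <;> linarith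
    rw [h2]
    exact_mod_cast h1) b (by
    intro x j h
    exact hf j _) (by
    intro x j h t
    simp only [hb]
    have e : x + w (Function.update h j t) = (x + w h) + (t - h j) • v j := by
      ext i
      simp only [Pi.add_apply, hw, Pi.smul_apply, smul_eq_mul]
      rw [← add_sum_erase univ _ (mem_univ j), ← add_sum_erase univ (fun l => h l * v l i) (mem_univ j),
        Function.update_self]
      have e2 : ∑ l ∈ univ.erase j, Function.update h j t l * v l i = ∑ l ∈ univ.erase j, h l * v l i := by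
        apply sum_congr rfl
        intro l hl
        rw [Function.update_of_ne (ne_of_mem_erase hl)]
      rw [e2]
      ring
    rw [e]
    exact inv_zsmul (hfi j) _ _)
  have hHK : (0 : ℝ) < (H : ℝ) ^ (K + 1) := by positivity
  have hcard : ((cb (K + 1) H).card : ℝ) = (H : ℝ) ^ (K + 1) := by rw [card_cb]; push_cast; rfl
  have e1 : (H : ℝ) ^ (K + 1) * ∑ x ∈ box P P', Φ x = ∑ x ∈ box P P', ∑ h ∈ cb (K + 1) H, Φ (x + w h)
      + ∑ h ∈ cb (K + 1) H, (∑ x ∈ box P P', Φ x - ∑ x ∈ box P P', Φ (x + w h)) := by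
    rw [sum_sub_distrib, sum_const, nsmul_eq_mul, hcard, sum_comm (s := cb (K + 1) H)]
    ring
  have e2 : |∑ x ∈ box P P', ∑ h ∈ cb (K + 1) H, Φ (x + w h)| ≤ η ^ (K + 1) * (ε / 4) * (X : ℝ) ^ D * (X : ℝ) ^ (K + 1 + 1) := by
    refine (abs_sum_le_sum_abs _ _).trans ?_
    refine le_trans (le_of_eq ?_) hmain
    apply sum_congr rfl; intro x _
    congr 1
    apply sum_congr rfl; intro h _
    exact hprod x h
  have e3 : |∑ h ∈ cb (K + 1) H, (∑ x ∈ box P P', Φ x - ∑ x ∈ box P P', Φ (x + w h))| ≤ (H : ℝ) ^ (K + 1) * (2 * (H * V) * (X : ℝ) ^ D) := by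
    refine (abs_sum_le_sum_abs _ _).trans ((sum_le_card_nsmul _ _ _ hdiff).trans ?_)
    rw [nsmul_eq_mul, hcard]
  have e4 : (H : ℝ) ^ (K + 1) * |∑ x ∈ box P P', Φ x| ≤ (H : ℝ) ^ (K + 1) * (ε * (X : ℝ) ^ (D + 1)) := by
    have h1 : (H : ℝ) ^ (K + 1) * |∑ x ∈ box P P', Φ x| = |(H : ℝ) ^ (K + 1) * ∑ x ∈ box P P', Φ x| := by
      rw [abs_mul, abs_of_pos hHK]
    rw [h1, e1]
    refine (abs_add_le _ _).trans ?_
    have h2 : η ^ (K + 1) * (ε / 4) * (X : ℝ) ^ D * (X : ℝ) ^ (K + 1 + 1) ≤ (H : ℝ) ^ (K + 1) * (ε / 4 * (X : ℝ) ^ (D + 1)) := by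
      have h3 : (η * X) ^ (K + 1) ≤ (H : ℝ) ^ (K + 1) := pow_le_pow_left₀ (by positivity) hH1 _
      calc η ^ (K + 1) * (ε / 4) * (X : ℝ) ^ D * (X : ℝ) ^ (K + 1 + 1) = (η * X) ^ (K + 1) * (ε / 4 * (X : ℝ) ^ (D + 1)) := by
            rw [mul_pow]; ring
        _ ≤ _ := mul_le_mul_of_nonneg_right h3 (by positivity)
    have h4 : 2 * (H * V) * (X : ℝ) ^ D ≤ ε / 2 * (X : ℝ) ^ (D + 1) := by
      have h5 : 2 * (H * V) ≤ ε / 2 * X := by
        have h6 : (H : ℝ) * V ≤ (η * X + 1) * V := mul_le_mul_of_nonneg_right hH2 hV0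
        have h7 := mul_le_mul_of_nonneg_right hη1 hX0.le
        nlinarith
      calc 2 * (H * V) * (X : ℝ) ^ D ≤ (ε / 2 * X) * (X : ℝ) ^ D := mul_le_mul_of_nonneg_right h5 (by positivity)
        _ = _ := by ring
    have h5 := mul_le_mul_of_nonneg_left h4 hHK.le
    have h6 : (H : ℝ) ^ (K + 1) * (ε * (X : ℝ) ^ (D + 1)) = (H : ℝ) ^ (K + 1) * (ε / 4 * (X : ℝ) ^ (D + 1))
        + (H : ℝ) ^ (K + 1) * (ε / 2 * (X : ℝ) ^ (D + 1)) + (H : ℝ) ^ (K + 1) * (ε / 4 * (X : ℝ) ^ (D + 1)) := by ring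
    have h7 : 0 ≤ (H : ℝ) ^ (K + 1) * (ε / 4 * (X : ℝ) ^ (D + 1)) := by positivity
    linarith
  exact le_of_mul_le_mul_left e4 hHK

end Pool.Agent.J4.H12.IE
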